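import Pool.Agent.H70.KP.Stm
import Pool.Agent.L0h93.Karp.RelX
import Pool.Agent.H70.KP.M.F0
import Pool.Agent.H70.KP.M.F1
import Pool.Agent.H70.KP.M.F2
import Pool.Agent.H70.KP.M.F3
import Pool.Agent.H70.KP.M.F4
import Pool.Agent.H70.KP.M.P0
import Pool.Agent.H70.KP.M.P1
import Pool.Agent.H70.KP.M.P2
import Pool.Agent.H70.KP.M.P3
import Pool.Agent.H70.KP.M.P4
import Pool.Agent.H70.KP.M.P5
import Pool.Agent.H70.KP.M.P6
import Pool.Agent.H70.KP.M.P7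
import Pool.Agent.H70.KP.M.P8
import Pool.Agent.H70.KP.M.P9
import Pool.Agent.H70.KP.M.P10
import Pool.Agent.H70.KP.M.P11
import Pool.Agent.H70.KP.M.P12
import Pool.Agent.H70.KP.M.P13
import Pool.Agent.H70.KP.M.P14
import Pool.Agent.H70.KP.M.P15

set_option autoImplicit false

/-! MP_257582_lc: certificate (generated). -/

namespace Pool.Agent.H70.KP.M

open Pool.Agent.H70.KP
open Pool.Agent.L0h93.Karp.M5 (gr entL gr_eq okD)
open Pool.Agent.H70.KP.R2 (RD okRT okRT_ok)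

theorem i1 : Nat.beq (mkS (nat_lit 58) L12 (mkS (nat_lit 150) L11 (mkS (nat_lit 150) L10 (mkS (nat_lit 150) L9 (mkS (nat_lit 150) L8 (mkS (nat_lit 150) L7 (mkS (nat_lit 150) L6 (mkS (nat_lit 150) L5 (mkS (nat_lit 150) L4 (mkS (nat_lit 150) L3 (mkS (nat_lit 150) L2 (mkS (nat_lit 150) L1 (mkS (nat_lit 150) L0 (nat_lit 0)))))))))))))) sT0 = true := by decide +kernel

theorem i2 : Nat.beq (mkS (nat_lit 83) L38 (mkS (nat_lit 150) L37 (mkS (nat_lit 150) L36 (mkS (nat_lit 150) L35 (mkS (nat_lit 150) L34 (mkS (nat_lit 150) L33 (mkS (nat_lit 150) L32 (mkS (nat_lit 150) L31 (mkS (nat_lit 150) L30 (mkS (nat_lit 150) L29 (mkS (nat_lit 150) L28 (mkS (nat_lit 150) L27 (mkS (nat_lit 150) L26 (mkS (nat_lit 150) L25 (mkS (nat_lit 150) L24 (mkS (nat_lit 150) L23 (mkS (nat_lit 150) L22 (mkS (nat_lit 150) L21 (mkS (nat_lit 150) L20 (mkS (nat_lit 150) L19 (mkS (nat_lit 150) L18 (mkS (nat_lit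 150) L17 (mkS (nat_lit 150) L16 (mkS (nat_lit 150) L15 (mkS (nat_lit 150) L14 (mkS (nat_lit 150) L13 (nat_lit 0))))))))))))))))))))))))))) sF0 = true := by decide +kernel

/-- the initial state is right -/
theorem init {x : ℕ → ℤ} (h1 : ∀ v, bif3 (okF1 (nat_lit 85) (nat_lit 253) (ent v)) true
    (List.elem (ent v) ([] : List ℕ)) = true → x v = 1)
    (h0 : ∀ v, bif3 (okF0 (nat_lit 85) (nat_lit 253) (ent v)) true
    (List.elem (ent v) ([] : List ℕ)) = true → x v = 0) :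
    Stt x (fun j => gr clT j) (nat_lit 0) sT0 sF0 := by
  have e1 := Nat.eq_of_beq_eq_true i1
  have e2 := Nat.eq_of_beq_eq_true i2
  rw [← e1, ← e2]
  refine ⟨fun j hj => absurd hj (Nat.not_lt_zero j), ?_⟩
  refine mkS_okT _ h1 _ _ _ _ l12 ?_
  refine mkS_okT _ h1 _ _ _ _ l11 ?_
  refine mkS_okT _ h1 _ _ _ _ l10 ?_
  refine mkS_okT _ h1 _ _ _ _ l9 ?_
  refine mkS_okT _ h1 _ _ _ _ l8 ?_
  refine mkS_okT _ h1 _ _ _ _ l7 ?_
  refine mkS_okT _ h1 _ _ _ _ l6 ?_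
  refine mkS_okT _ h1 _ _ _ _ l5 ?_
  refine mkS_okT _ h1 _ _ _ _ l4 ?_
  refine mkS_okT _ h1 _ _ _ _ l3 ?_
  refine mkS_okT _ h1 _ _ _ _ l2 ?_
  refine mkS_okT _ h1 _ _ _ _ l1 ?_
  refine mkS_okT _ h1 _ _ _ _ l0 ?_
  refine mkS_okF _ h0 _ _ _ _ l38 ?_
  refine mkS_okF _ h0 _ _ _ _ l37 ?_
  refine mkS_okF _ h0 _ _ _ _ l36 ?_
  refine mkS_okF _ h0 _ _ _ _ l35 ?_
  refine mkS_okF _ h0 _ _ _ _ l34 ?_
  refine mkS_okF _ h0 _ _ _ _ l33 ?_
  refine mkS_okF _ h0 _ _ _ _ l32 ?_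
  refine mkS_okF _ h0 _ _ _ _ l31 ?_
  refine mkS_okF _ h0 _ _ _ _ l30 ?_
  refine mkS_okF _ h0 _ _ _ _ l29 ?_
  refine mkS_okF _ h0 _ _ _ _ l28 ?_
  refine mkS_okF _ h0 _ _ _ _ l27 ?_
  refine mkS_okF _ h0 _ _ _ _ l26 ?_
  refine mkS_okF _ h0 _ _ _ _ l25 ?_
  refine mkS_okF _ h0 _ _ _ _ l24 ?_
  refine mkS_okF _ h0 _ _ _ _ l23 ?_
  refine mkS_okF _ h0 _ _ _ _ l22 ?_
  refine mkS_okF _ h0 _ _ _ _ l21 ?_
  refine mkS_okF _ h0 _ _ _ _ l20 ?_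
  refine mkS_okF _ h0 _ _ _ _ l19 ?_
  refine mkS_okF _ h0 _ _ _ _ l18 ?_
  refine mkS_okF _ h0 _ _ _ _ l17 ?_
  refine mkS_okF _ h0 _ _ _ _ l16 ?_
  refine mkS_okF _ h0 _ _ _ _ l15 ?_
  refine mkS_okF _ h0 _ _ _ _ l14 ?_
  refine mkS_okF _ h0 _ _ _ _ l13 ?_
  exact Ok.zero x

open Pool.Agent.H119R2.Kp Pool.Agent.N593.Karp Pool.Agent.L0h93.Karp Pool.Agent.L0h93.Karp.M5 in
/-- the relations hold -/
theorem hRel {n q : ℕ} {P : SimpleGraph (Fin n) → Prop} (hP : GP n q P) {r p : ℕ}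
    (har : Ar n q r p) (j : ℕ) : (gr rlT j).Hold (fun v => fV P r p (ent v)) := by
  rw [gr_eq]
  refine Tr.get_all _ rlT ?_ j
  exact ⟨⟨⟨okRT_ok hP har ent rdT_0 rlT_0 r_0, okRT_ok hP har ent rdT_4 rlT_4 r_4⟩, ⟨okRT_ok hP har ent rdT_2 rlT_2 r_2, 
  okRT_ok hP har ent rdT_6 rlT_6 r_6⟩⟩, ⟨⟨okRT_ok hP har ent rdT_1 rlT_1 r_1, okRT_ok hP har ent rdT_5 rlT_5 r_5⟩, 
  ⟨okRT_ok hP har ent rdT_3 rlT_3 r_3, okRT_ok hP har ent rdT_7 rlT_7 r_7⟩⟩⟩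

open Pool.Agent.H119R2.Kp Pool.Agent.N593.Karp Pool.Agent.L0h93.Karp Pool.Agent.L0h93.Karp.M5 in
/-- **the case is impossible** -/
theorem leaf (hF1 : S_F1) {n q : ℕ} {P : SimpleGraph (Fin n) → Prop} (hP : GP n q P)
    (hS : Star n P) {r p : ℕ} (har : Ar n q r p) (hc : Cse P r p 85 253) : False := by
  have h1 : ∀ v, bif3 (okF1 (nat_lit 85) (nat_lit 253) (ent v)) true
      (List.elem (ent v) ([] : List ℕ)) = true → fV P r p (ent v) = 1 := by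
    intro v h
    rcases bif3_c h with ⟨h, _⟩ | h
    · exact (hF1 n q P hP hS r p har 85 253 hc (ent v)).1 h
    · exact Bool.noConfusion h
  have h0 : ∀ v, bif3 (okF0 (nat_lit 85) (nat_lit 253) (ent v)) true
      (List.elem (ent v) ([] : List ℕ)) = true → fV P r p (ent v) = 0 := by
    intro v h
    rcases bif3_c h with ⟨h, _⟩ | h
    · exact (hF1 n q P hP hS r p har 85 253 hc (ent v)).2 h
    · exact Bool.noConfusion h
  have hs := init (x := fun v => fV P r p (ent v)) h1 h0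
  have h01 : ∀ m, fV P r p m = 0 ∨ fV P r p m = 1 := fun m => fV01 r p m
  have hf : ∀ i π a b, okD i π a b = true → fV P r p a ≤ fV P r p b :=
    fun i π a b h => dom hP r p har.hrp i π a b h
  have hR := hRel hP har
  have hs := c0 h01 hf hR hs
  have hs := c1 h01 hf hR hs
  have hs := c2 h01 hf hR hs
  have hs := c3 h01 hf hR hs
  have hs := c4 h01 hf hR hs
  have hs := c5 h01 hf hR hs
  have hs := c6 h01 hf hR hs
  have hs := c7 h01 hf hR hs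
  have hs := c8 h01 hf hR hs
  have hs := c9 h01 hf hR hs
  have hs := c10 h01 hf hR hs
  have hs := c11 h01 hf hR hs
  have hs := c12 h01 hf hR hs
  have hs := c13 h01 hf hR hs
  have hs := c14 h01 hf hR hs
  exact c15 h01 hf hR hs

end Pool.Agent.H70.KP.M
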